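import Pool.Agent.H295R2.LK.Final
import Pool.Agent.H306R2.EvenConst

set_option autoImplicit false

/-!
The eighth moment of zeta in all intervals longer than a power of the logarithm: an explicit
unconditional lower bound.
-/

open Filter

theorem Pool.Agent.Results.MP_56b8f5_nt.ShortIntervals.result (c : ℝ)
    (hc : c < 1820 ^ 2 / 2 ^ 16) :
    ∃ A : ℝ, 0 < A ∧ ∀ᶠ T : ℝ in atTop, ∀ U : ℝ, Real.log T ^ A ≤ U →
      c * ((∏' p : Nat.Primes, ((1 - 1 / (p : ℝ)) ^ 16 *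
        ∑' m : ℕ, ((m + 3).choose m : ℝ) ^ 2 * (1 / (p : ℝ)) ^ m)) / (Nat.factorial 16 : ℝ)) *
          Real.log U ^ 16 ≤
      1 / U * ∫ t in T..(T + U), ‖riemannZeta (1 / 2 + t * Complex.I)‖ ^ 8 := by
  set a : ℝ := (∏' p : Nat.Primes, ((1 - 1 / (p : ℝ)) ^ 16 *
        ∑' m : ℕ, ((m + 3).choose m : ℝ) ^ 2 * (1 / (p : ℝ)) ^ m)) with ha
  have ha4 : Pool.Agent.H306R2.aF (4 : ℝ) = a := by
    have h := Pool.Agent.H306R2.aF_nat 4 (by norm_num)
    rw [show ((4 : ℕ) : ℝ) = 4 by norm_num] at h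
    rw [h, ha]
    refine tprod_congr fun p => ?_
    congr 1
  have ha0 : 0 < a := by
    rw [← ha4]
    exact Pool.Agent.H306R2.aF_pos (by norm_num)
  have h16 : (0 : ℝ) < (Nat.factorial 16 : ℝ) := by positivity
  obtain ⟨A, hA, hmain⟩ := H295LK.mainK 2 (c * (a / (Nat.factorial 16 : ℝ))) (by norm_num) (by
    have e1 : (2 * ((2 : ℕ) : ℝ)) = 4 := by norm_num
    rw [e1, ha4]
    have e2 : (4 * 2 ^ 2 : ℕ) = 16 := by norm_num
    have e3 : (2 ^ 2 : ℕ) = 4 := by norm_num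
    have e4 : ((Nat.choose 16 4 : ℕ) : ℝ) = 1820 := by
      have : Nat.choose 16 4 = 1820 := by decide
      rw [this]; norm_num
    rw [e2, e3, e4, mul_comm]
    refine mul_lt_mul_of_pos_left ?_ (by positivity)
    refine hc.trans_eq ?_
    norm_num)
  refine ⟨A, hA, ?_⟩
  filter_upwards [hmain, Real.tendsto_log_atTop.eventually_gt_atTop 0] with T hT hT0 U hU
  have hU0 : 0 < U := lt_of_lt_of_le (Real.rpow_pos_of_pos hT0 _) hU
  have h := hT U hU
  rw [show (4 * 2 ^ 2 : ℕ) = 16 by norm_num, show (4 * 2 : ℕ) = 8 by norm_num] at h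
  rw [one_div, ← div_eq_inv_mul, le_div_iff₀ hU0]
  linarith
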